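import Pool.Agent.Y343.LD.Main

/-!
The two top `L²`-Betti numbers of arbitrary aspherical quotients of a given space.

Let `M` be an aspherical `n`-manifold, compact with boundary or not, with infinite fundamental group
`H`; `K` is the `2`-skeleton of the universal covering of a triangulation of the interior of `M` (or
of a locally finite simplicial complex which is properly homotopy equivalent to the interior), and
`H` acts on its set `V` of vertices. Neither the group nor the volume of `M` are restricted; the
condition is on the large scale geometry of the universal covering.

Definitions in `Pool.Agent.Y343.LC.Stm`: `b2 H j = dim H_j(H; ℓ²H)` (Lueck's extended dimension over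
the von Neumann algebra of `H`), `Cx V`, `Closed1`, `IsD`, `ProperAction K H` (connected, locally
finite, simplicial action with finite vertex stabilisers), `H1Zero K` (`H¹(K; ℂ) = 0`),
`H1cTriv K H` (the compactly supported cohomology `H¹_c(K / H; ℓ²H)` vanishes), `DualL2 K H n`
(Poincare duality with coefficients in `ℓ²(H)` in cohomological degrees `≤ 1`), `HC Γ 1` (the
cohomology `H¹(Γ; ℓ²Γ)`).

Definitions in `Pool.Agent.Y343.LD.Stm`: `Sq` (square-summable), `L2Prim`, `Dirichlet`, `Gap`,
`Liouville`, `BddDegree`, `Cay`, `QuasiIsometric`, `LikeGroup`, `LikeProduct`, `LikeLiouville`.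

The jobs were done by helper154 (quasi-isometries), helper383 (groups; spectral gap), helper810
(products) and helper905 (the equivalence).
-/

set_option autoImplicit false

namespace Pool.Agent.Results.MP_8fe54c_gt.ArbitraryQuotients

open Pool.Agent.Y343.LC Pool.Agent.Y343.LD

/-- **Theorem.** Let an arbitrary infinite group `H` act simplicially, with finite vertex
stabilisers, on the connected locally finite complex `K`.

* `H¹_c(K / H; ℓ²H) = 0` if and only if every closed square-summable scalar `1`-cochain of `K` whose
  support meets only finitely many orbits of `H` has a square-summable primitive.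
* This holds for all `H` if `H¹(K; ℂ) = 0`, the degrees are bounded and the `1`-skeleton of `K` is
  quasi-isometric to a finitely generated group `Γ` with `H¹(Γ; ℓ²Γ) = 0` (no relation between `Γ`
  and `H` is assumed), or to a product of two connected graphs of bounded degree, one with a
  spectral gap and the other one infinite, or to a connected graph of bounded degree with a spectral
  gap and without nonconstant harmonic functions of finite Dirichlet energy.
* If `K / H` satisfies Poincare duality in dimension `n`, then in all these cases `b_j(H) = 0` for
  all `j ≥ n - 1`; hence `b_j(H) = 0` for all `j > n / 2` if `n ≤ 4`. -/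
theorem result (V : Type) (K : Cx V) (H : Type) [Group H] [MulAction H V] [Infinite H]
    (hA : ProperAction K H) :
    (L2Prim K H ↔ H1cTriv K H) ∧
    (H1Zero K → BddDegree K.graph →
      (LikeGroup K.graph ∨ LikeProduct K.graph ∨ LikeLiouville K.graph) → L2Prim K H) ∧
    ∀ n : ℕ, DualL2 K H n → L2Prim K H →
      (∀ j, n - 1 ≤ j → b2 H j = 0) ∧ (n ≤ 4 → ∀ j, n < 2 * j → b2 H j = 0) := by
  obtain ⟨a, b, c⟩ := Pool.Agent.Y343.LD.main K H hA
  exact ⟨a, b, fun n hD hP => ⟨c n hD hP, fun hn j hj => c n hD hP j (by omega)⟩⟩

end Pool.Agent.Results.MP_8fe54c_gt.ArbitraryQuotients
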