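import Pool.Agent.Y132.SI.Up

/-!
# Betti numbers of compact aspherical manifolds with boundary above the middle dimension

Let `G` be a finite graph in the class `AQ n`, for example a full subgraph of the graph of a
barycentrically subdivided triangulation of the `(n-1)`-sphere. If the flag complex of `G` is a full
subcomplex of a flag triangulated `(n-1)`-sphere `L` then a regular neighbourhood of the Davis complex
of `W G` in the Davis manifold of `L`, divided by a torsion-free subgroup `H` of finite index of `W G`,
is a compact aspherical `n`-manifold with fundamental group `H`.

We show that the reduced `ℓ²`-homology of the Davis complex of `W G` vanishes in all degrees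
`i > n / 2`, and more strongly that the ordinary `i`-th real Betti numbers of all subgroups `H` of
finite index which contain no conjugate of an element of a finite set `E = E(ε)` of nontrivial
elements are at most `ε [W G : H]` (for example, of all far enough members of any residual chain of
normal subgroups of finite index).
-/

set_option autoImplicit false

namespace Pool.Agent.Results.MP_8fe54c_gt.UniformGrowth

open Pool.Agent.W907.SG Pool.Agent.TH652.Above Pool.Agent.Y132.SI

/-- Let the finite graph `G` be in the class `AQ n`. (1) There are no nonzero `ℓ²` harmonic `i`-chains
on the Davis complex of `W G` for `i > n / 2`. (2) For each `ε > 0` there is a finite set `E` of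
nontrivial elements of `W G` such that for every subgroup `H` of finite index which contains no
conjugate of an element of `E`, and for all `i > n / 2`, the `i`-th real Betti number of `H` (the
dimension of the space of the `H`-invariant real harmonic `i`-chains of the Davis complex) is at most
`ε [W G : H]`. -/
theorem result : ∀ (n : ℕ) (V : Type) [Fintype V] [LinearOrder V] (G : SimpleGraph V), AQ n G →
    (∀ i : ℕ, n < 2 * i → L2Van G i) ∧
    ∀ ε : ℝ, 0 < ε → ∃ E : Finset (W G), (1 : W G) ∉ E ∧
      ∀ H : Subgroup (W G), H.FiniteIndex → (∀ g ∈ E, ∀ x : W G, x * g * x⁻¹ ∉ H) →
        ∀ i : ℕ, n < 2 * i → (Module.finrank ℝ (HInv G H i) : ℝ) ≤ ε * H.index := by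
  intro n V _ _ G hA
  exact ⟨fun i hi => above_AQ hA i hi, fun ε hε => growth_above hA ε hε⟩

end Pool.Agent.Results.MP_8fe54c_gt.UniformGrowth
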